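import Pool.Agent.Helper57.QZ.Stmts2

/-! # Row XB: `gX` is bounded, measurable, and vanishes on `(0, 2)` -/

set_option autoImplicit false

namespace Pool.Agent.Helper57.QZ

open MeasureTheory Set Filter Topology

namespace S84

theorem abs_mu (d : ℕ) : |((ArithmeticFunction.moebius d : ℤ) : ℝ)| ≤ 1 := by
  have h := ArithmeticFunction.abs_moebius_le_one (n := d)
  exact_mod_cast h

theorem bX_eq (X n : ℕ) (hn : n ≠ 0) :
    bX X n = ∑ d ∈ Finset.Icc 1 X,
      if d ∣ n then ((ArithmeticFunction.moebius d : ℤ) : ℝ) else 0 := by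
  unfold bX
  rw [← Finset.sum_filter]
  refine Finset.sum_congr ?_ fun _ _ => rfl
  ext d
  rw [Finset.mem_filter, Finset.mem_filter, Nat.mem_divisors, Finset.mem_Icc]
  constructor
  · rintro ⟨⟨h1, -⟩, h2⟩
    exact ⟨⟨Nat.pos_of_dvd_of_pos h1 (Nat.pos_of_ne_zero hn), h2⟩, h1⟩
  · rintro ⟨⟨-, h2⟩, h1⟩
    exact ⟨⟨h1, hn⟩, h2⟩

theorem sum_bX (X N : ℕ) : ∑ n ∈ Finset.Icc 1 N, bX X n =
    ∑ d ∈ Finset.Icc 1 X, ((ArithmeticFunction.moebius d : ℤ) : ℝ) * ((N / d : ℕ) : ℝ) := by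
  rw [Finset.sum_congr rfl (fun n hn => bX_eq X n (by
    have := (Finset.mem_Icc.1 hn).1
    omega)), Finset.sum_comm]
  refine Finset.sum_congr rfl fun d _ => ?_
  rw [← Finset.sum_filter, Finset.sum_const, nsmul_eq_mul, mul_comm]
  congr 2
  have h : Finset.Icc 1 N = Finset.Ioc 0 N := by
    ext n
    simp only [Finset.mem_Icc, Finset.mem_Ioc]
    omega
  rw [h]
  exact Nat.Ioc_filter_dvd_card_eq_div N d

/-- the mean value -/
noncomputable def cX (X : ℕ) : ℝ :=
  ∑ d ∈ Finset.Icc 1 X, ((ArithmeticFunction.moebius d : ℤ) : ℝ) / d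

theorem sum_le (X : ℕ) (f : ℕ → ℝ) (hf : ∀ d ∈ Finset.Icc 1 X, |f d| ≤ 1) :
    |∑ d ∈ Finset.Icc 1 X, f d| ≤ X := by
  calc |∑ d ∈ Finset.Icc 1 X, f d| ≤ ∑ d ∈ Finset.Icc 1 X, |f d| :=
        Finset.abs_sum_le_sum_abs _ _
    _ ≤ ∑ _d ∈ Finset.Icc 1 X, (1 : ℝ) := Finset.sum_le_sum hf
    _ = X := by
        rw [Finset.sum_const, Nat.card_Icc, nsmul_eq_mul, mul_one]
        push_cast
        simp

theorem cX_le (X : ℕ) : |cX X| ≤ X := by
  unfold cX
  refine sum_le X _ fun d hd => ?_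
  have hd1 : (1 : ℝ) ≤ d := by exact_mod_cast (Finset.mem_Icc.1 hd).1
  rw [abs_div, Nat.abs_cast, div_le_one (by linarith)]
  exact (abs_mu d).trans hd1

theorem NX_small (X : ℕ) (x : ℝ) (hx : x < 2) : NX X x = 0 := by
  unfold NX
  have h : ⌊x⌋₊ < 2 := by
    rcases le_or_gt x 0 with h0 | h0
    · rw [Nat.floor_of_nonpos h0]; norm_num
    · exact (Nat.floor_lt h0.le).2 (by exact_mod_cast hx)
  rw [Finset.Icc_eq_empty (by omega)]
  simp

theorem bX_one (X : ℕ) (hX : 1 ≤ X) : bX X 1 = 1 := by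
  unfold bX
  rw [Nat.divisors_one, Finset.filter_singleton, if_pos hX, Finset.sum_singleton]
  simp

theorem NX_bound (X : ℕ) (hX : 1 ≤ X) (x : ℝ) (hx : 0 ≤ x) :
    |NX X x - cX X * x| ≤ X + 1 := by
  rcases lt_or_ge x 1 with h1 | h1
  · rw [NX_small X x (by linarith), zero_sub, abs_neg, abs_mul, abs_of_nonneg hx]
    have h2 := cX_le X
    have h3 := abs_nonneg (cX X)
    nlinarith
  · have hN : 1 ≤ ⌊x⌋₊ := (Nat.one_le_floor_iff x).2 h1
    have h2 : Finset.Icc 1 ⌊x⌋₊ = insert 1 (Finset.Icc 2 ⌊x⌋₊) := by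
      ext n
      simp only [Finset.mem_Icc, Finset.mem_insert]
      omega
    have h3 := sum_bX X ⌊x⌋₊
    rw [h2, Finset.sum_insert (by simp), bX_one X hX] at h3
    have h4 : NX X x - cX X * x = (∑ d ∈ Finset.Icc 1 X,
        ((ArithmeticFunction.moebius d : ℤ) : ℝ) * (((⌊x⌋₊ / d : ℕ) : ℝ) - x / d)) - 1 := by
      have h5 : NX X x = ∑ d ∈ Finset.Icc 1 X,
          ((ArithmeticFunction.moebius d : ℤ) : ℝ) * ((⌊x⌋₊ / d : ℕ) : ℝ) - 1 := by
        rw [← h3]
        unfold NX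
        ring
      have h6 : cX X * x = ∑ d ∈ Finset.Icc 1 X,
          ((ArithmeticFunction.moebius d : ℤ) : ℝ) * (x / d) := by
        unfold cX
        rw [Finset.sum_mul]
        refine Finset.sum_congr rfl fun d _ => ?_
        ring
      rw [h5, h6]
      simp only [mul_sub, Finset.sum_sub_distrib]
      ring
    rw [h4]
    have h7 : |∑ d ∈ Finset.Icc 1 X,
        ((ArithmeticFunction.moebius d : ℤ) : ℝ) * (((⌊x⌋₊ / d : ℕ) : ℝ) - x / d)| ≤ X := by
      refine sum_le X _ fun d _ => ?_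
      rw [← Nat.floor_div_natCast]
      have h8 : 0 ≤ x / d := by positivity
      have h9 := Nat.floor_le h8
      have h10 := Nat.lt_floor_add_one (x / (d : ℝ))
      have h11 : |((⌊x / d⌋₊ : ℕ) : ℝ) - x / d| ≤ 1 := by
        rw [abs_le]
        constructor <;> linarith
      rw [abs_mul]
      calc |((ArithmeticFunction.moebius d : ℤ) : ℝ)| * |((⌊x / d⌋₊ : ℕ) : ℝ) - x / d|
          ≤ 1 * 1 := mul_le_mul (abs_mu d) h11 (abs_nonneg _) zero_le_one
        _ = 1 := one_mul 1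
    calc |(∑ d ∈ Finset.Icc 1 X,
        ((ArithmeticFunction.moebius d : ℤ) : ℝ) * (((⌊x⌋₊ / d : ℕ) : ℝ) - x / d)) - 1|
        ≤ |∑ d ∈ Finset.Icc 1 X,
          ((ArithmeticFunction.moebius d : ℤ) : ℝ) * (((⌊x⌋₊ / d : ℕ) : ℝ) - x / d)| + |(1 : ℝ)| :=
          abs_sub _ _
      _ ≤ X + 1 := by
          rw [abs_one]
          linarith

theorem NX_meas (X : ℕ) : Measurable (NX X) := by
  have h : NX X = (fun N : ℕ => ∑ n ∈ Finset.Icc 2 N, bX X n) ∘ Nat.floor := rfl
  rw [h]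
  exact (measurable_from_top).comp Nat.measurable_floor

theorem NX_int (X : ℕ) (hX : 1 ≤ X) (a b : ℝ) : IntervalIntegrable (NX X) volume a b := by
  have hc : Continuous fun u : ℝ => (X : ℝ) * |u| + (X + 1) := by fun_prop
  refine (hc.intervalIntegrable a b).mono_fun' (NX_meas X).aestronglyMeasurable ?_
  refine Filter.Eventually.of_forall fun u => ?_
  change ‖NX X u‖ ≤ (X : ℝ) * |u| + (X + 1)
  rw [Real.norm_eq_abs]
  rcases lt_or_ge u 0 with h | h
  · rw [NX_small X u (by linarith), abs_zero]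
    positivity
  · have h1 := NX_bound X hX u h
    have h2 := cX_le X
    have h3 : |cX X * u| ≤ X * |u| := by
      rw [abs_mul]
      exact mul_le_mul_of_nonneg_right h2 (abs_nonneg _)
    calc |NX X u| = |(NX X u - cX X * u) + cX X * u| := by rw [sub_add_cancel]
      _ ≤ |NX X u - cX X * u| + |cX X * u| := abs_add_le _ _
      _ ≤ (X : ℝ) * |u| + (X + 1) := by linarith

end S84

theorem st_XB : ST_XB := by
  intro X hX
  have hint : ∀ a b : ℝ, IntervalIntegrable (NX X) volume a b := S84.NX_int X hX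
  have hX1 : (1 : ℝ) ≤ X := by exact_mod_cast hX
  refine ⟨fun x hx => ?_, ?_, fun x hx0 hx2 => ?_⟩
  · set B : ℝ := (X : ℝ) + 1 with hB
    have h1 := S84.NX_bound X hX x hx.le
    have h2 : ∫ u in (0:ℝ)..x, (NX X u - S84.cX X * u) =
        (∫ u in (0:ℝ)..x, NX X u) - S84.cX X * (x ^ 2 / 2) := by
      have hi : IntervalIntegrable (fun u : ℝ => S84.cX X * u) volume 0 x :=
        (continuous_const.mul continuous_id).intervalIntegrable 0 x
      rw [intervalIntegral.integral_sub (hint 0 x) hi]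
      congr 1
      rw [intervalIntegral.integral_const_mul, integral_id]
      ring
    have h3 : ‖∫ u in (0:ℝ)..x, (NX X u - S84.cX X * u)‖ ≤ B * |x - 0| := by
      refine intervalIntegral.norm_integral_le_of_norm_le_const fun u hu => ?_
      rw [uIoc_of_le hx.le] at hu
      rw [Real.norm_eq_abs]
      exact S84.NX_bound X hX u hu.1.le
    rw [Real.norm_eq_abs, sub_zero, abs_of_pos hx, h2] at h3
    have h4 : gX X x = (NX X x - S84.cX X * x) - 2 / x *
        ((∫ u in (0:ℝ)..x, NX X u) - S84.cX X * (x ^ 2 / 2)) := by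
      unfold gX
      field_simp
      ring
    rw [h4]
    have h5 : |2 / x * ((∫ u in (0:ℝ)..x, NX X u) - S84.cX X * (x ^ 2 / 2))| ≤ 2 * B := by
      rw [abs_mul, abs_of_pos (by positivity : (0:ℝ) < 2 / x)]
      calc 2 / x * |(∫ u in (0:ℝ)..x, NX X u) - S84.cX X * (x ^ 2 / 2)| ≤ 2 / x * (B * x) :=
            mul_le_mul_of_nonneg_left h3 (by positivity)
        _ = 2 * B := by field_simp
    calc |(NX X x - S84.cX X * x) - 2 / x *
        ((∫ u in (0:ℝ)..x, NX X u) - S84.cX X * (x ^ 2 / 2))| ≤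
        |NX X x - S84.cX X * x| + |2 / x * ((∫ u in (0:ℝ)..x, NX X u) -
          S84.cX X * (x ^ 2 / 2))| := abs_sub _ _
      _ ≤ B + 2 * B := add_le_add h1 h5
      _ ≤ 10 * X := by rw [hB]; linarith
  · have hm1 : Measurable (fun u : ℝ => NX X (Real.exp u)) :=
      (S84.NX_meas X).comp Real.measurable_exp
    have hc : Continuous fun x : ℝ => ∫ u in (0:ℝ)..x, NX X u :=
      intervalIntegral.continuous_primitive hint 0
    have hm2 : Measurable (fun u : ℝ => ∫ v in (0:ℝ)..Real.exp u, NX X v) :=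
      hc.measurable.comp Real.measurable_exp
    unfold gX
    exact hm1.sub ((measurable_const.div Real.measurable_exp).mul hm2)
  · unfold gX
    rw [S84.NX_small X x hx2]
    have : ∫ u in (0:ℝ)..x, NX X u = 0 := by
      rw [intervalIntegral.integral_congr (g := fun _ => (0:ℝ)) (fun u hu => ?_)]
      · simp
      · rw [uIcc_of_le hx0.le] at hu
        exact S84.NX_small X u (hu.2.trans_lt hx2)
    rw [this]
    simp

end Pool.Agent.Helper57.QZ
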